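import Pool.Agent.helper95.T5.SpecN
import Pool.Agent.helper77.FT.P6c

set_option autoImplicit false

/-! Row DC4 of the T5 project: count of the dual points. -/

namespace Pool.Agent.T5

open Finset NumberField Pool.Agent.helper3.FT Pool.Agent.helper47.RA

open Classical in
/-- the condition of membership in `dualG` for a fixed value `σ` of the scaling -/
noncomputable def DC4_c (c q₁ q₂ σ h : ℕ) (p : ℕ × ℕ) (v : ℤ × ℤ × ℤ × ℤ) : ℝ :=
  if (Nat.Coprime h (5 * c * (p.1 * p.2)) ∧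
      ((h : ℤ) ∣ F1 (q₂ * v.1) v.2.1 (σ * v.2.2.1) p.1 p.2) ∧
      ((h : ℤ) ∣ F2 v.2.1 (σ * v.2.2.1) (q₁ * σ * v.2.2.2) p.1 p.2) ∧
      (F1 (q₂ * v.1) v.2.1 (σ * v.2.2.1) p.1 p.2 ≠ 0 ∨
        F2 v.2.1 (σ * v.2.2.1) (q₁ * σ * v.2.2.2) p.1 p.2 ≠ 0)) then 1 else 0

theorem DC4_c_nonneg (c q₁ q₂ σ h : ℕ) (p : ℕ × ℕ) (v : ℤ × ℤ × ℤ × ℤ) :
    0 ≤ DC4_c c q₁ q₂ σ h p v := by
  unfold DC4_c
  split_ifs <;> norm_num

theorem DC4_c_le_one (c q₁ q₂ σ h : ℕ) (p : ℕ × ℕ) (v : ℤ × ℤ × ℤ × ℤ) :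
    DC4_c c q₁ q₂ σ h p v ≤ 1 := by
  unfold DC4_c
  split_ifs <;> norm_num

theorem DC4_swap {α β γ δ : Type} (A : Finset α) (B : Finset β) (C : Finset γ) (D : Finset δ)
    (f : α → β → γ → δ → ℝ) :
    ∑ h ∈ A, ∑ p ∈ B, ∑ v ∈ C, ∑ σ ∈ D, f h p v σ =
      ∑ σ ∈ D, ∑ v ∈ C, ∑ h ∈ A, ∑ p ∈ B, f h p v σ := by
  calc ∑ h ∈ A, ∑ p ∈ B, ∑ v ∈ C, ∑ σ ∈ D, f h p v σ
      = ∑ h ∈ A, ∑ p ∈ B, ∑ σ ∈ D, ∑ v ∈ C, f h p v σ :=
        sum_congr rfl fun h _ => sum_congr rfl fun p _ => sum_comm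
    _ = ∑ h ∈ A, ∑ σ ∈ D, ∑ p ∈ B, ∑ v ∈ C, f h p v σ := sum_congr rfl fun h _ => sum_comm
    _ = ∑ σ ∈ D, ∑ h ∈ A, ∑ p ∈ B, ∑ v ∈ C, f h p v σ := sum_comm
    _ = ∑ σ ∈ D, ∑ h ∈ A, ∑ v ∈ C, ∑ p ∈ B, f h p v σ :=
        sum_congr rfl fun σ _ => sum_congr rfl fun h _ => sum_comm
    _ = _ := sum_congr rfl fun σ _ => sum_comm

theorem DC4_card (N K y P c q₁ q₂ e : ℕ) (he : 0 < e) (s : ℕ × ℕ → ℕ) (hs : ∀ p, s p ∣ e)
    (a : Fin 4 → ℕ) :
    ((dualG N K y P c q₁ q₂ s a).card : ℝ) ≤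
      ∑ σ ∈ e.divisors, ∑ v ∈ box4 a, ∑ h ∈ Ico P (2 * P), ∑ p ∈ pairs N K y,
        DC4_c c q₁ q₂ σ h p v := by
  have h1 : ((dualG N K y P c q₁ q₂ s a).card : ℝ) =
      ∑ h ∈ Ico P (2 * P), ∑ p ∈ pairs N K y, ∑ v ∈ box4 a, DC4_c c q₁ q₂ (s p) h p v := by
    unfold dualG
    rw [card_filter, sum_product]
    push_cast
    refine sum_congr rfl fun h _ => ?_
    rw [sum_product]
    refine sum_congr rfl fun p _ => sum_congr rfl fun v _ => ?_
    unfold DC4_c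
    split_ifs <;> tauto
  rw [h1, ← DC4_swap]
  refine sum_le_sum fun h _ => sum_le_sum fun p _ => sum_le_sum fun v _ => ?_
  exact single_le_sum (f := fun σ => DC4_c c q₁ q₂ σ h p v)
    (fun σ _ => DC4_c_nonneg c q₁ q₂ σ h p v) (Nat.mem_divisors.2 ⟨hs p, he.ne'⟩)

theorem DC4_mem_box {a : Fin 4 → ℕ} {v : ℤ × ℤ × ℤ × ℤ} (hv : v ∈ box4 a) :
    |v.1| ≤ a 0 ∧ |v.2.1| ≤ a 1 ∧ |v.2.2.1| ≤ a 2 ∧ |v.2.2.2| ≤ a 3 := by
  unfold box4 at hv
  simp only [mem_product, mem_Icc] at hv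
  simp only [abs_le]
  tauto

theorem DC4_Rf_le {U A A' B X : ℤ} (h1 : |A| ≤ U) (h2 : |A'| ≤ U) (h3 : |B| ≤ U) (h4 : |X| ≤ U) :
    |Rf A A' B X| ≤ 4000 * U ^ 6 := by
  have hU : 0 ≤ U := (abs_nonneg _).trans h1
  have hP : |A' * B| ≤ U ^ 2 := by
    rw [abs_mul, sq]; exact mul_le_mul h2 h3 (abs_nonneg _) hU
  have hQ : |A * X| ≤ U ^ 2 := by
    rw [abs_mul, sq]; exact mul_le_mul h1 h4 (abs_nonneg _) hU
  have hB5 : |A * B ^ 5| ≤ U ^ 6 := by
    rw [abs_mul, abs_pow]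
    calc |A| * |B| ^ 5 ≤ U * U ^ 5 :=
          mul_le_mul h1 (pow_le_pow_left₀ (abs_nonneg _) h3 5) (by positivity) hU
      _ = _ := by ring
  have hX5 : |A' ^ 5 * X| ≤ U ^ 6 := by
    rw [abs_mul, abs_pow]
    calc |A'| ^ 5 * |X| ≤ U ^ 5 * U :=
          mul_le_mul (pow_le_pow_left₀ (abs_nonneg _) h2 5) h4 (abs_nonneg _) (by positivity)
      _ = _ := by ring
  have t1 : |(A' * B) ^ 3| ≤ U ^ 6 := by
    rw [abs_pow]
    calc |A' * B| ^ 3 ≤ (U ^ 2) ^ 3 := pow_le_pow_left₀ (abs_nonneg _) hP 3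
      _ = _ := by ring
  have t2 : |(A' * B) ^ 2 * (A * X)| ≤ U ^ 6 := by
    rw [abs_mul, abs_pow]
    calc |A' * B| ^ 2 * |A * X| ≤ (U ^ 2) ^ 2 * (U ^ 2) :=
          mul_le_mul (pow_le_pow_left₀ (abs_nonneg _) hP 2) hQ (abs_nonneg _) (by positivity)
      _ = _ := by ring
  have t3 : |(A' * B) * (A * X) ^ 2| ≤ U ^ 6 := by
    rw [abs_mul, abs_pow]
    calc |A' * B| * |A * X| ^ 2 ≤ (U ^ 2) * (U ^ 2) ^ 2 :=
          mul_le_mul hP (pow_le_pow_left₀ (abs_nonneg _) hQ 2) (by positivity) (by positivity)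
      _ = _ := by ring
  have t4 : |(A * X) ^ 3| ≤ U ^ 6 := by
    rw [abs_pow]
    calc |A * X| ^ 3 ≤ (U ^ 2) ^ 3 := pow_le_pow_left₀ (abs_nonneg _) hQ 3
      _ = _ := by ring
  have hU6 : 0 ≤ U ^ 6 := by positivity
  rw [abs_le] at t1 t2 t3 t4 hB5 hX5 ⊢
  unfold Rf
  constructor
  · linarith [t1.1, t2.1, t3.2, t4.1, hB5.2, hX5.2]
  · linarith [t1.2, t2.2, t3.1, t4.2, hB5.1, hX5.1]

theorem DC4_F_le {U T A A' B X : ℤ} (h1 : |A| ≤ U) (h2 : |A'| ≤ U) (h3 : |B| ≤ U) (h4 : |X| ≤ U)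
    {n k : ℤ} (hn0 : 0 ≤ n) (hn : n ≤ T) (hk0 : 0 ≤ k) (hk : k ≤ T) :
    |F1 A A' B n k| ≤ 8 * (U * T ^ 3) ∧ |F2 A' B X n k| ≤ 8 * (U * T ^ 3) := by
  have hU : 0 ≤ U := (abs_nonneg _).trans h1
  have hT : 0 ≤ T := hn0.trans hn
  have term : ∀ (Y : ℤ), |Y| ≤ U → ∀ a b : ℕ, a + b = 3 →
      |Y * (n ^ a * k ^ b)| ≤ U * T ^ 3 := by
    intro Y hY a b hab
    have hnk : 0 ≤ n ^ a * k ^ b := mul_nonneg (pow_nonneg hn0 a) (pow_nonneg hk0 b)
    rw [abs_mul, abs_of_nonneg hnk]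
    apply mul_le_mul hY _ hnk hU
    calc n ^ a * k ^ b ≤ T ^ a * T ^ b :=
          mul_le_mul (pow_le_pow_left₀ hn0 hn a) (pow_le_pow_left₀ hk0 hk b) (pow_nonneg hk0 b)
            (pow_nonneg hT a)
      _ = T ^ 3 := by rw [← pow_add, hab]
  have hUT : 0 ≤ U * T ^ 3 := mul_nonneg hU (pow_nonneg hT 3)
  constructor
  · have u1 := term A h1 3 0 rfl
    have u2 := term A' h2 1 2 rfl
    have u3 := term B h3 0 3 rfl
    rw [abs_le] at u1 u2 u3 ⊢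
    unfold F1
    have e : 5 * A * n ^ 3 - 2 * A' * n * k ^ 2 + B * k ^ 3 =
      5 * (A * (n ^ 3 * k ^ 0)) - 2 * (A' * (n ^ 1 * k ^ 2)) + B * (n ^ 0 * k ^ 3) := by
      ring
    rw [e]
    constructor
    · linarith [u1.1, u2.2, u3.1]
    · linarith [u1.2, u2.1, u3.2]
  · have u1 := term A' h2 3 0 rfl
    have u2 := term B h3 2 1 rfl
    have u3 := term X h4 0 3 rfl
    rw [abs_le] at u1 u2 u3 ⊢
    unfold F2
    have e : A' * n ^ 3 + 2 * B * n ^ 2 * k - 5 * X * k ^ 3 =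
      A' * (n ^ 3 * k ^ 0) + 2 * (B * (n ^ 2 * k ^ 1)) - 5 * (X * (n ^ 0 * k ^ 3)) := by
      ring
    rw [e]
    constructor
    · linarith [u1.1, u2.1, u3.2]
    · linarith [u1.2, u2.2, u3.1]

/-- sizes of the scaled vector -/
theorem DC4_scaled {T q₁ q₂ σ : ℕ} (hT : 1 ≤ T) (hq1 : q₁ ≤ T) (hq2 : q₂ ≤ T) (hσ : σ ≤ T)
    {a : Fin 4 → ℕ} (ha : ∀ i, a i ≤ T) {v : ℤ × ℤ × ℤ × ℤ} (hv : v ∈ box4 a) :
    |(q₂ : ℤ) * v.1| ≤ (T : ℤ) ^ 3 ∧ |v.2.1| ≤ (T : ℤ) ^ 3 ∧ |(σ : ℤ) * v.2.2.1| ≤ (T : ℤ) ^ 3 ∧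
      |(q₁ : ℤ) * σ * v.2.2.2| ≤ (T : ℤ) ^ 3 := by
  obtain ⟨h1, h2, h3, h4⟩ := DC4_mem_box hv
  have hT' : (1 : ℤ) ≤ T := by exact_mod_cast hT
  have ha' : ∀ i, (a i : ℤ) ≤ T := fun i => by exact_mod_cast ha i
  have hq1' : (q₁ : ℤ) ≤ T := by exact_mod_cast hq1
  have hq2' : (q₂ : ℤ) ≤ T := by exact_mod_cast hq2
  have hσ' : (σ : ℤ) ≤ T := by exact_mod_cast hσ
  have hT1 : (T : ℤ) ≤ (T : ℤ) ^ 3 := by
    calc (T : ℤ) = (T : ℤ) ^ 1 := by ring
      _ ≤ _ := pow_le_pow_right₀ hT' (by norm_num)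
  have hT2 : (T : ℤ) * T ≤ (T : ℤ) ^ 3 := by
    calc (T : ℤ) * T = (T : ℤ) ^ 2 := by ring
      _ ≤ _ := pow_le_pow_right₀ hT' (by norm_num)
  refine ⟨?_, (h2.trans (ha' 1)).trans hT1, ?_, ?_⟩
  · rw [abs_mul, Nat.abs_cast]
    exact (mul_le_mul hq2' (h1.trans (ha' 0)) (abs_nonneg _) (by positivity)).trans hT2
  · rw [abs_mul, Nat.abs_cast]
    exact (mul_le_mul hσ' (h3.trans (ha' 2)) (abs_nonneg _) (by positivity)).trans hT2
  · rw [abs_mul, abs_mul, Nat.abs_cast, Nat.abs_cast]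
    calc (q₁ : ℤ) * σ * |v.2.2.2| ≤ (T * T) * T :=
          mul_le_mul (mul_le_mul hq1' hσ' (by positivity) (by positivity)) (h4.trans (ha' 3))
            (abs_nonneg _) (by positivity)
      _ = _ := by ring

theorem DC4_gcd {h c q₁ q₂ σ : ℕ} (hc : Nat.Coprime h c) (hq2 : q₂ ∣ c) (hσ : σ ∣ c)
    (hq1σ : q₁ * σ ∣ c) (A A' B X : ℤ) (h0 : ¬ (A = 0 ∧ A' = 0 ∧ B = 0 ∧ X = 0)) :
    Nat.gcd h (g4 (q₂ * A) A' (σ * B) (q₁ * σ * X)) ≤ g4 A A' B X := by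
  apply Nat.le_of_dvd
  · apply Nat.pos_of_ne_zero
    intro hz
    unfold g4 at hz
    rw [Nat.gcd_eq_zero_iff, Int.gcd_eq_zero_iff, Int.gcd_eq_zero_iff] at hz
    exact h0 ⟨hz.1.1, hz.1.2, hz.2.1, hz.2.2⟩
  · set d := Nat.gcd h (g4 (q₂ * A) A' (σ * B) (q₁ * σ * X)) with hd
    have hdh : d ∣ h := Nat.gcd_dvd_left _ _
    have hdg : d ∣ g4 (q₂ * A) A' (σ * B) (q₁ * σ * X) := Nat.gcd_dvd_right _ _
    unfold g4 at hdg
    have g1 : (d : ℤ) ∣ (Int.gcd (q₂ * A) A' : ℤ) :=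
      Int.natCast_dvd_natCast.2 (hdg.trans (Nat.gcd_dvd_left _ _))
    have g2 : (d : ℤ) ∣ (Int.gcd (σ * B) (q₁ * σ * X) : ℤ) :=
      Int.natCast_dvd_natCast.2 (hdg.trans (Nat.gcd_dvd_right _ _))
    have dA := g1.trans (Int.gcd_dvd_left _ _)
    have dA' := g1.trans (Int.gcd_dvd_right _ _)
    have dB := g2.trans (Int.gcd_dvd_left _ _)
    have dX := g2.trans (Int.gcd_dvd_right _ _)
    have hdc : ∀ m : ℕ, m ∣ c → IsCoprime (d : ℤ) (m : ℤ) := fun m hm =>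
      Nat.isCoprime_iff_coprime.2 (Nat.Coprime.coprime_dvd_right hm (Nat.Coprime.coprime_dvd_left hdh hc))
    have eA : (d : ℤ) ∣ A := (hdc q₂ hq2).dvd_of_dvd_mul_left dA
    have eB : (d : ℤ) ∣ B := (hdc σ hσ).dvd_of_dvd_mul_left dB
    have eX : (d : ℤ) ∣ X := by
      have := hdc (q₁ * σ) hq1σ
      push_cast at this
      exact this.dvd_of_dvd_mul_left dX
    unfold g4
    apply Nat.dvd_gcd
    · exact Int.natCast_dvd_natCast.1 (Int.dvd_coe_gcd eA dA')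
    · exact Int.natCast_dvd_natCast.1 (Int.dvd_coe_gcd eB eX)

/-- for a nonzero resultant the number of admissible pairs `(h, p)` -/
theorem DC4_first (hPC4 : PC4_stmt) {N K y P c q₁ q₂ σ : ℕ} (hN : 1 ≤ N) (hy : Squarefree y)
    (hq2 : q₂ ∣ c) (hσ : σ ∣ c) (hq1σ : q₁ * σ ∣ c) {v : ℤ × ℤ × ℤ × ℤ}
    (hv : Rf (q₂ * v.1) v.2.1 (σ * v.2.2.1) (q₁ * σ * v.2.2.2) ≠ 0) (D1 D2 : ℝ) (hD1 : 0 ≤ D1)
    (hD2 : 0 ≤ D2) (hP : 1 ≤ P)
    (h1 : ∀ h ∈ Ico P (2 * P), (3 : ℝ) ^ h.primeFactors.card ≤ D1)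
    (h2 : (2 : ℝ) ^ y.primeFactors.card ≤ D2) :
    ∑ h ∈ Ico P (2 * P), ∑ p ∈ pairs N K y, DC4_c c q₁ q₂ σ h p v ≤
      ((Rf (q₂ * v.1) v.2.1 (σ * v.2.2.1) (q₁ * σ * v.2.2.2)).natAbs.divisors.card : ℝ) *
        (D1 * D2 * (1 + 2 * K * N * (g4 v.1 v.2.1 v.2.2.1 v.2.2.2 : ℝ) / (P * y))) := by
  obtain ⟨A, A', B, X⟩ := v
  simp only at hv ⊢
  have hy0 : (0 : ℝ) < y := by exact_mod_cast Nat.pos_of_ne_zero hy.ne_zero
  have hP0 : (0 : ℝ) < P := by exact_mod_cast hP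
  set R := (Rf (q₂ * A) A' (σ * B) (q₁ * σ * X)).natAbs with hR
  have hR0 : R ≠ 0 := by rw [hR]; exact Int.natAbs_ne_zero.2 hv
  have hne : ¬ (A = 0 ∧ A' = 0 ∧ B = 0 ∧ X = 0) := by
    rintro ⟨rfl, rfl, rfl, rfl⟩
    apply hv
    unfold Rf
    ring
  have hne' : ¬ ((q₂ : ℤ) * A = 0 ∧ A' = 0 ∧ (σ : ℤ) * B = 0 ∧ (q₁ : ℤ) * σ * X = 0) := by
    rintro ⟨w1, w2, w3, w4⟩
    apply hv
    rw [w1, w2, w3, w4]
    unfold Rf
    ring
  have hB0 : 0 ≤ D1 * D2 * (1 + 2 * K * N * (g4 A A' B X : ℝ) / (P * y)) := by positivity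
  have step : ∀ h ∈ Ico P (2 * P), ∑ p ∈ pairs N K y, DC4_c c q₁ q₂ σ h p (A, A', B, X) ≤
      if h ∣ R then D1 * D2 * (1 + 2 * K * N * (g4 A A' B X : ℝ) / (P * y)) else 0 := by
    intro h hh
    have hhP := (mem_Ico.1 hh).1
    by_cases hhc : Nat.Coprime h c
    swap
    · have hz : ∑ p ∈ pairs N K y, DC4_c c q₁ q₂ σ h p (A, A', B, X) = 0 := by
        apply sum_eq_zero
        intro p _
        unfold DC4_c
        rw [if_neg]
        rintro ⟨hc, -⟩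
        exact hhc (Nat.Coprime.coprime_dvd_right ⟨5 * (p.1 * p.2), by ring⟩ hc)
      rw [hz]
      split_ifs
      · exact hB0
      · exact le_refl _
    split_ifs with hd
    · calc ∑ p ∈ pairs N K y, DC4_c c q₁ q₂ σ h p (A, A', B, X)
          ≤ ∑ p ∈ pairs N K y, (if (Nat.Coprime h (5 * (p.1 * p.2)) ∧
              ((h : ℤ) ∣ F1 (q₂ * A) A' (σ * B) p.1 p.2) ∧
              ((h : ℤ) ∣ F2 A' (σ * B) (q₁ * σ * X) p.1 p.2)) then (1 : ℝ) else 0) := by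
            refine sum_le_sum fun p _ => ?_
            unfold DC4_c
            simp only
            split_ifs with w1 w2 w2
            · exact le_refl _
            · exfalso
              apply w2
              exact ⟨Nat.Coprime.coprime_dvd_right ⟨c, by ring⟩ w1.1, w1.2.1, w1.2.2.1⟩
            · norm_num
            · exact le_refl _
        _ = (((pairs N K y).filter (fun p => Nat.Coprime h (5 * (p.1 * p.2)) ∧
              ((h : ℤ) ∣ F1 (q₂ * A) A' (σ * B) p.1 p.2) ∧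
              ((h : ℤ) ∣ F2 A' (σ * B) (q₁ * σ * X) p.1 p.2))).card : ℝ) := by
            rw [card_filter]; push_cast; rfl
        _ ≤ 3 ^ h.primeFactors.card * 2 ^ y.primeFactors.card *
              (1 + 2 * K * N * Nat.gcd h (g4 (q₂ * A) A' (σ * B) (q₁ * σ * X)) / (h * y)) :=
            hPC4 h y N K hN (by omega) hy _ _ _ _ hne'
        _ ≤ D1 * D2 * (1 + 2 * K * N * (g4 A A' B X : ℝ) / (P * y)) := by
            have hPh : (P : ℝ) ≤ h := by exact_mod_cast hhP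
            have hg : (Nat.gcd h (g4 (q₂ * A) A' (σ * B) (q₁ * σ * X)) : ℝ) ≤ (g4 A A' B X : ℝ) := by
              exact_mod_cast DC4_gcd hhc hq2 hσ hq1σ A A' B X hne
            apply mul_le_mul
            · exact mul_le_mul (h1 h hh) h2 (by positivity) hD1
            · have : 2 * (K : ℝ) * N * Nat.gcd h (g4 (q₂ * A) A' (σ * B) (q₁ * σ * X)) / (h * y) ≤
                  2 * (K : ℝ) * N * (g4 A A' B X : ℝ) / (P * y) := by
                apply div_le_div₀ (by positivity) _ (by positivity)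
                · exact mul_le_mul_of_nonneg_right hPh hy0.le
                · exact mul_le_mul_of_nonneg_left hg (by positivity)
              linarith
            · positivity
            · positivity
    · apply le_of_eq
      apply sum_eq_zero
      intro p _
      unfold DC4_c
      simp only
      rw [if_neg]
      rintro ⟨hc, hd1, hd2, -⟩
      apply hd
      have hc' : IsCoprime (h : ℤ) (5 * (p.2 : ℤ)) := by
        have : IsCoprime (h : ℤ) ((5 * c * (p.1 * p.2) : ℕ) : ℤ) := Nat.isCoprime_iff_coprime.2 hc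
        push_cast at this
        refine this.of_isCoprime_of_dvd_right ?_
        exact ⟨(c * p.1 : ℤ), by ring⟩
      have h3 := dvd_Rf h _ _ _ _ p.1 p.2 hc' hd1 hd2
      rw [hR]
      exact Int.natCast_dvd.1 h3
  calc ∑ h ∈ Ico P (2 * P), ∑ p ∈ pairs N K y, DC4_c c q₁ q₂ σ h p (A, A', B, X)
      ≤ ∑ h ∈ Ico P (2 * P),
        (if h ∣ R then D1 * D2 * (1 + 2 * K * N * (g4 A A' B X : ℝ) / (P * y)) else 0) := sum_le_sum step
    _ = (((Ico P (2 * P)).filter (fun h => h ∣ R)).card : ℝ) *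
        (D1 * D2 * (1 + 2 * K * N * (g4 A A' B X : ℝ) / (P * y))) := by
        rw [← sum_filter, sum_const, nsmul_eq_mul]
    _ ≤ _ := by
        apply mul_le_mul_of_nonneg_right _ (by positivity)
        norm_cast
        apply card_le_card
        intro h hh
        rw [mem_filter] at hh
        exact Nat.mem_divisors.2 ⟨hh.2, hR0⟩

/-- for every `v` the number of admissible pairs `(h, p)`, from the divisors of the cubic forms -/
theorem DC4_second {N K y P c q₁ q₂ σ : ℕ} {v : ℤ × ℤ × ℤ × ℤ} (D : ℝ) (hD : 0 ≤ D)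
    (h1 : ∀ p ∈ pairs N K y, ∀ n : ℕ, 0 < n →
      (n = (F1 (q₂ * v.1) v.2.1 (σ * v.2.2.1) p.1 p.2).natAbs ∨
        n = (F2 v.2.1 (σ * v.2.2.1) (q₁ * σ * v.2.2.2) p.1 p.2).natAbs) →
      (n.divisors.card : ℝ) ≤ D) :
    ∑ h ∈ Ico P (2 * P), ∑ p ∈ pairs N K y, DC4_c c q₁ q₂ σ h p v ≤ ((pairs N K y).card : ℝ) * D := by
  rw [sum_comm, ← nsmul_eq_mul, ← sum_const]
  refine sum_le_sum fun p hp => ?_
  by_cases hF : F1 (q₂ * v.1) v.2.1 (σ * v.2.2.1) p.1 p.2 ≠ 0 ∨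
      F2 v.2.1 (σ * v.2.2.1) (q₁ * σ * v.2.2.2) p.1 p.2 ≠ 0
  · have key : ∀ n : ℕ, 0 < n →
        (n = (F1 (q₂ * v.1) v.2.1 (σ * v.2.2.1) p.1 p.2).natAbs ∨
          n = (F2 v.2.1 (σ * v.2.2.1) (q₁ * σ * v.2.2.2) p.1 p.2).natAbs) →
        ∑ h ∈ Ico P (2 * P), DC4_c c q₁ q₂ σ h p v ≤ D := by
      intro n hn hor
      refine le_trans ?_ (h1 p hp n hn hor)
      calc ∑ h ∈ Ico P (2 * P), DC4_c c q₁ q₂ σ h p v
          ≤ ∑ h ∈ Ico P (2 * P), (if h ∣ n then (1 : ℝ) else 0) := by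
            refine sum_le_sum fun h _ => ?_
            unfold DC4_c
            split_ifs with hc hd hd
            · exact le_refl _
            · exfalso
              apply hd
              rcases hor with h' | h'
              · rw [h']; exact Int.natCast_dvd.1 hc.2.1
              · rw [h']; exact Int.natCast_dvd.1 hc.2.2.1
            · norm_num
            · exact le_refl _
        _ = (((Ico P (2 * P)).filter (fun h => h ∣ n)).card : ℝ) := by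
            rw [card_filter]; push_cast; rfl
        _ ≤ (n.divisors.card : ℝ) := by
            norm_cast
            apply card_le_card
            intro h hh
            rw [mem_filter] at hh
            exact Nat.mem_divisors.2 ⟨hh.2, hn.ne'⟩
    rcases hF with h' | h'
    · exact key _ (Int.natAbs_pos.2 h') (Or.inl rfl)
    · exact key _ (Int.natAbs_pos.2 h') (Or.inr rfl)
  · have : ∑ h ∈ Ico P (2 * P), DC4_c c q₁ q₂ σ h p v = 0 := by
      apply sum_eq_zero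
      intro h _
      unfold DC4_c
      rw [if_neg]
      rintro ⟨-, -, -, hc⟩
      exact hF hc
    rw [this]
    exact hD

/-- number of vectors `(A, A', 0, 0)`, nonzero, with both entries divisible by `h` -/
theorem DC4_mult (h : ℕ) (hh : 1 ≤ h) (a : Fin 4 → ℕ) :
    ((((box4 a).filter (fun v => v.2.2.1 = 0 ∧ v.2.2.2 = 0)).filter
      (fun v => (h : ℤ) ∣ v.1 ∧ (h : ℤ) ∣ v.2.1 ∧ ¬ (v.1 = 0 ∧ v.2.1 = 0))).card : ℝ) ≤
      4 * ((a 0 : ℝ) / h) * ((a 1 : ℝ) / h) + 2 * ((a 0 : ℝ) / h) + 2 * ((a 1 : ℝ) / h) := by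
  classical
  set m := a 0 / h with hm
  set m' := a 1 / h with hm'
  have hh0 : (0 : ℤ) < h := by exact_mod_cast hh
  have bd : ∀ (b : ℤ) (x : ℕ), |(h : ℤ) * b| ≤ x → |b| ≤ ((x / h : ℕ) : ℤ) := by
    intro b x hb
    rw [abs_mul, Nat.abs_cast, Int.abs_eq_natAbs] at hb
    have h1 : h * b.natAbs ≤ x := by exact_mod_cast hb
    rw [Int.abs_eq_natAbs]
    have h2 : b.natAbs ≤ x / h := (Nat.le_div_iff_mul_le (by omega)).2 (by rw [mul_comm]; exact h1)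
    exact_mod_cast h2
  have hsub : (((box4 a).filter (fun v => v.2.2.1 = 0 ∧ v.2.2.2 = 0)).filter
      (fun v => (h : ℤ) ∣ v.1 ∧ (h : ℤ) ∣ v.2.1 ∧ ¬ (v.1 = 0 ∧ v.2.1 = 0))) ⊆
      ((Icc (-(m : ℤ)) m ×ˢ Icc (-(m' : ℤ)) m').erase (0, 0)).image
        (fun b => ((h : ℤ) * b.1, (h : ℤ) * b.2, (0 : ℤ), (0 : ℤ))) := by
    rintro ⟨A, A', B, X⟩ hv
    rw [mem_filter, mem_filter] at hv
    obtain ⟨⟨hbox, hB, hX⟩, ⟨b, hb⟩, ⟨b', hb'⟩, hne⟩ := hv
    obtain ⟨k1, k2, -, -⟩ := DC4_mem_box hbox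
    simp only at hB hX hb hb' hne k1 k2
    rw [mem_image]
    refine ⟨(b, b'), ?_, ?_⟩
    · rw [mem_erase]
      constructor
      · intro h0
        rw [Prod.mk.injEq] at h0
        apply hne
        rw [hb, hb', h0.1, h0.2]
        simp
      · rw [hb] at k1
        rw [hb'] at k2
        have r1 := abs_le.1 (bd b _ k1)
        have r2 := abs_le.1 (bd b' _ k2)
        simp only [mem_product, mem_Icc]
        exact ⟨⟨r1.1, r1.2⟩, ⟨r2.1, r2.2⟩⟩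
    · rw [hB, hX, hb, hb']
  have hcard : (((box4 a).filter (fun v => v.2.2.1 = 0 ∧ v.2.2.2 = 0)).filter
      (fun v => (h : ℤ) ∣ v.1 ∧ (h : ℤ) ∣ v.2.1 ∧ ¬ (v.1 = 0 ∧ v.2.1 = 0))).card ≤
      4 * m * m' + 2 * m + 2 * m' := by
    refine (card_le_card hsub).trans (card_image_le.trans ?_)
    rw [card_erase_of_mem (by simp), card_product, Int.card_Icc, Int.card_Icc]
    have e1 : ((m : ℤ) + 1 - -(m : ℤ)).toNat = 2 * m + 1 := by omega
    have e2 : ((m' : ℤ) + 1 - -(m' : ℤ)).toNat = 2 * m' + 1 := by omega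
    rw [e1, e2]
    apply Nat.sub_le_of_le_add
    apply le_of_eq
    ring
  have hmr : (m : ℝ) ≤ (a 0 : ℝ) / h := by rw [hm]; exact Nat.cast_div_le
  have hmr' : (m' : ℝ) ≤ (a 1 : ℝ) / h := by rw [hm']; exact Nat.cast_div_le
  have hcr : ((((box4 a).filter (fun v => v.2.2.1 = 0 ∧ v.2.2.2 = 0)).filter
      (fun v => (h : ℤ) ∣ v.1 ∧ (h : ℤ) ∣ v.2.1 ∧ ¬ (v.1 = 0 ∧ v.2.1 = 0))).card : ℝ) ≤
      4 * m * m' + 2 * m + 2 * m' := by exact_mod_cast hcard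
  refine hcr.trans ?_
  have hmm : (m : ℝ) * m' ≤ (a 0 : ℝ) / h * ((a 1 : ℝ) / h) :=
    mul_le_mul hmr hmr' (by positivity) (by positivity)
  nlinarith

/-- the vectors with `B = X = 0` -/
theorem DC4_third {N K y P c q₁ q₂ σ : ℕ} (hP : 1 ≤ P) (hq2 : q₂ ∣ c) (a : Fin 4 → ℕ) :
    ∑ v ∈ (box4 a).filter (fun v => v.2.2.1 = 0 ∧ v.2.2.2 = 0),
      ∑ h ∈ Ico P (2 * P), ∑ p ∈ pairs N K y, DC4_c c q₁ q₂ σ h p v ≤
      ((pairs N K y).card : ℝ) * (4 * ((a 0 : ℝ) * a 1 / P) + 2 * a 0 + 2 * a 1) := by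
  classical
  have hP0 : (0 : ℝ) < P := by exact_mod_cast hP
  rw [sum_comm]
  have hstep : ∀ h ∈ Ico P (2 * P),
      ∑ v ∈ (box4 a).filter (fun v => v.2.2.1 = 0 ∧ v.2.2.2 = 0),
        ∑ p ∈ pairs N K y, DC4_c c q₁ q₂ σ h p v ≤
      ((pairs N K y).card : ℝ) *
        (4 * ((a 0 : ℝ) / P) * ((a 1 : ℝ) / P) + 2 * ((a 0 : ℝ) / P) + 2 * ((a 1 : ℝ) / P)) := by
    intro h hh
    have hhP := (mem_Ico.1 hh).1
    have hPh : (P : ℝ) ≤ h := by exact_mod_cast hhP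
    rw [sum_comm, ← nsmul_eq_mul, ← sum_const]
    refine sum_le_sum fun p _ => ?_
    calc ∑ v ∈ (box4 a).filter (fun v => v.2.2.1 = 0 ∧ v.2.2.2 = 0), DC4_c c q₁ q₂ σ h p v
        ≤ ∑ v ∈ (box4 a).filter (fun v => v.2.2.1 = 0 ∧ v.2.2.2 = 0),
            (if ((h : ℤ) ∣ v.1 ∧ (h : ℤ) ∣ v.2.1 ∧ ¬ (v.1 = 0 ∧ v.2.1 = 0)) then (1 : ℝ) else 0) := by
          refine sum_le_sum fun v hv => ?_
          obtain ⟨-, hB, hX⟩ := mem_filter.1 hv
          unfold DC4_c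
          split_ifs with w1 w2 w2
          · exact le_refl _
          · exfalso
            apply w2
            obtain ⟨hc, hd1, hd2, hnz⟩ := w1
            rw [hB] at hd1 hd2 hnz
            rw [hX] at hd2 hnz
            unfold F1 at hd1 hnz
            unfold F2 at hd2 hnz
            have hc0 : IsCoprime (h : ℤ) ((5 * c * (p.1 * p.2) : ℕ) : ℤ) :=
              Nat.isCoprime_iff_coprime.2 hc
            push_cast at hc0
            have hcn : IsCoprime (h : ℤ) ((p.1 : ℤ) ^ 3) := by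
              apply IsCoprime.pow_right
              exact hc0.of_isCoprime_of_dvd_right ⟨(5 * c * p.2 : ℤ), by ring⟩
            have hA' : (h : ℤ) ∣ v.2.1 := by
              have : (h : ℤ) ∣ v.2.1 * (p.1 : ℤ) ^ 3 := by
                have e : v.2.1 * (p.1 : ℤ) ^ 3 + 2 * ((σ : ℤ) * 0) * (p.1 : ℤ) ^ 2 * p.2 -
                  5 * ((q₁ : ℤ) * σ * 0) * (p.2 : ℤ) ^ 3 = v.2.1 * (p.1 : ℤ) ^ 3 := by ring
                rw [e] at hd2
                exact hd2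
              exact hcn.dvd_of_dvd_mul_right this
            have hA : (h : ℤ) ∣ v.1 := by
              have h5 : (h : ℤ) ∣ (5 * q₂ * (p.1 : ℤ) ^ 3) * v.1 := by
                have e : (5 * q₂ * (p.1 : ℤ) ^ 3) * v.1 =
                  (5 * ((q₂ : ℤ) * v.1) * (p.1 : ℤ) ^ 3 - 2 * v.2.1 * (p.1 : ℤ) * (p.2 : ℤ) ^ 2 +
                    (σ : ℤ) * 0 * (p.2 : ℤ) ^ 3) + v.2.1 * (2 * (p.1 : ℤ) * (p.2 : ℤ) ^ 2) := by ring
                rw [e]
                exact dvd_add hd1 (hA'.mul_right _)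
              have hcq : IsCoprime (h : ℤ) (5 * q₂ * (p.1 : ℤ) ^ 3) := by
                apply IsCoprime.mul_right _ hcn
                obtain ⟨c', hc'⟩ := hq2
                refine hc0.of_isCoprime_of_dvd_right ⟨(c' * (p.1 * p.2) : ℤ), ?_⟩
                rw [hc']
                push_cast
                ring
              exact hcq.dvd_of_dvd_mul_left h5
            refine ⟨hA, hA', ?_⟩
            rintro ⟨z1, z2⟩
            rw [z1, z2] at hnz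
            rcases hnz with hnz | hnz
            · apply hnz; ring
            · apply hnz; ring
          · norm_num
          · exact le_refl _
      _ = ((((box4 a).filter (fun v => v.2.2.1 = 0 ∧ v.2.2.2 = 0)).filter
            (fun v => (h : ℤ) ∣ v.1 ∧ (h : ℤ) ∣ v.2.1 ∧ ¬ (v.1 = 0 ∧ v.2.1 = 0))).card : ℝ) := by
          rw [card_filter _ (s := (box4 a).filter (fun v => v.2.2.1 = 0 ∧ v.2.2.2 = 0))]
          push_cast; rfl
      _ ≤ 4 * ((a 0 : ℝ) / h) * ((a 1 : ℝ) / h) + 2 * ((a 0 : ℝ) / h) + 2 * ((a 1 : ℝ) / h) :=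
          DC4_mult h (by omega) a
      _ ≤ _ := by
          have q0 : (a 0 : ℝ) / h ≤ (a 0 : ℝ) / P := div_le_div_of_nonneg_left (by positivity) hP0 hPh
          have q1 : (a 1 : ℝ) / h ≤ (a 1 : ℝ) / P := div_le_div_of_nonneg_left (by positivity) hP0 hPh
          have q2 : (a 0 : ℝ) / h * ((a 1 : ℝ) / h) ≤ (a 0 : ℝ) / P * ((a 1 : ℝ) / P) :=
            mul_le_mul q0 q1 (by positivity) (by positivity)
          nlinarith
  refine (sum_le_sum hstep).trans ?_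
  rw [sum_const, Nat.card_Ico, nsmul_eq_mul]
  have e1 : ((2 * P - P : ℕ) : ℝ) = P := by
    have : 2 * P - P = P := by omega
    rw [this]
  rw [e1]
  apply le_of_eq
  field_simp

theorem DC4_box_card (a : Fin 4 → ℕ) : ((box4 a).card : ℝ) = ∏ i, (2 * (a i : ℝ) + 1) := by
  unfold box4
  rw [card_product, card_product, card_product]
  simp only [Int.card_Icc]
  have e : ∀ i, ((a i : ℤ) + 1 - -(a i : ℤ)).toNat = 2 * a i + 1 := fun i => by omega
  rw [e, e, e, e, Fin.prod_univ_four]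
  push_cast
  ring

/-- scaled box -/
def DC4_a (q₁ q₂ e : ℕ) (a : Fin 4 → ℕ) : Fin 4 → ℕ := ![q₂ * a 0, a 1, e * a 2, q₁ * e * a 3]

theorem DC4_deg (q₁ q₂ e σ : ℕ) (hq1 : 1 ≤ q₁) (hq2 : 1 ≤ q₂) (hσ : 1 ≤ σ) (hσe : σ ≤ e)
    (a : Fin 4 → ℕ) :
    ((box4 a).filter (fun v => Rf (q₂ * v.1) v.2.1 (σ * v.2.2.1) (q₁ * σ * v.2.2.2) = 0 ∧
      ¬ (v.2.2.1 = 0 ∧ v.2.2.2 = 0))).card ≤
    ((box4 (DC4_a q₁ q₂ e a)).filter (fun v => Rf v.1 v.2.1 v.2.2.1 v.2.2.2 = 0 ∧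
      ¬ (v.2.2.1 = 0 ∧ v.2.2.2 = 0))).card := by
  have q1z : (q₁ : ℤ) ≠ 0 := by exact_mod_cast (by omega : q₁ ≠ 0)
  have q2z : (q₂ : ℤ) ≠ 0 := by exact_mod_cast (by omega : q₂ ≠ 0)
  have σz : (σ : ℤ) ≠ 0 := by exact_mod_cast (by omega : σ ≠ 0)
  apply card_le_card_of_injOn
    (fun v : ℤ × ℤ × ℤ × ℤ => ((q₂ : ℤ) * v.1, v.2.1, (σ : ℤ) * v.2.2.1, (q₁ : ℤ) * σ * v.2.2.2))
  · intro v hv
    rw [mem_coe, mem_filter] at hv
    obtain ⟨hbox, hR, hne⟩ := hv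
    obtain ⟨k1, k2, k3, k4⟩ := DC4_mem_box hbox
    rw [mem_coe, mem_filter]
    refine ⟨?_, hR, ?_⟩
    · have l1 : |(q₂ : ℤ) * v.1| ≤ ((q₂ * a 0 : ℕ) : ℤ) := by
        rw [abs_mul, Nat.abs_cast]
        push_cast
        exact mul_le_mul_of_nonneg_left k1 (by positivity)
      have l3 : |(σ : ℤ) * v.2.2.1| ≤ ((e * a 2 : ℕ) : ℤ) := by
        rw [abs_mul, Nat.abs_cast]
        push_cast
        exact mul_le_mul (by exact_mod_cast hσe) k3 (abs_nonneg _) (by positivity)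
      have l4 : |(q₁ : ℤ) * σ * v.2.2.2| ≤ ((q₁ * e * a 3 : ℕ) : ℤ) := by
        rw [abs_mul, abs_mul, Nat.abs_cast, Nat.abs_cast]
        push_cast
        apply mul_le_mul _ k4 (abs_nonneg _) (by positivity)
        exact mul_le_mul_of_nonneg_left (by exact_mod_cast hσe) (by positivity)
      rw [abs_le] at l1 k2 l3 l4
      unfold box4
      simp only [mem_product, mem_Icc]
      exact ⟨l1, k2, l3, l4⟩
    · rintro ⟨z1, z2⟩
      apply hne
      simp only at z1 z2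
      constructor
      · rcases mul_eq_zero.1 z1 with z | z
        · exact absurd z σz
        · exact z
      · rcases mul_eq_zero.1 z2 with z | z
        · exact absurd z (mul_ne_zero q1z σz)
        · exact z
  · intro v _ w _ hvw
    obtain ⟨v1, v2, v3, v4⟩ := v
    obtain ⟨w1, w2, w3, w4⟩ := w
    simp only [Prod.mk.injEq] at hvw ⊢
    obtain ⟨e1, e2, e3, e4⟩ := hvw
    exact ⟨mul_left_cancel₀ q2z e1, e2, mul_left_cancel₀ σz e3,
      mul_left_cancel₀ (mul_ne_zero q1z σz) e4⟩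

theorem DC4_log (δ : ℝ) (hδ : 0 < δ) : ∃ C : ℝ, 1 ≤ C ∧ ∀ T : ℕ, 1 ≤ T →
    1 + Real.log T ≤ C * (T : ℝ) ^ δ := by
  have h0 : (0 : ℝ) < 1 / δ := by positivity
  refine ⟨1 + 1 / δ, by linarith, ?_⟩
  intro T hT
  have hT' : (1 : ℝ) ≤ T := by exact_mod_cast hT
  have h1 : Real.log T ≤ (T : ℝ) ^ δ / δ := Real.log_le_rpow_div (by linarith) hδ
  have h2 : (1 : ℝ) ≤ (T : ℝ) ^ δ := Real.one_le_rpow hT' hδ.le
  calc 1 + Real.log T ≤ (T : ℝ) ^ δ + (T : ℝ) ^ δ / δ := by linarith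
    _ = _ := by ring

theorem DC4 (hPC4 : PC4_stmt) (hSG4 : SG4_stmt) (hRDC : RDC_stmt) : DC4_stmt := by
  classical
  intro ε hε
  obtain ⟨Ca, hCa1, hCa⟩ := P6c_div (ε / 6) (by positivity) 4000 (by norm_num) 18
  obtain ⟨Cb, hCb1, hCb⟩ := P6c_div (ε / 6) (by positivity) 2 (by norm_num) 1
  obtain ⟨Cc, hCc1, hCc⟩ := P6c_div (ε / 6) (by positivity) 1 (by norm_num) 1
  obtain ⟨Cl, hCl1, hCl⟩ := DC4_log (ε / 6) (by positivity)
  obtain ⟨Ce, hCe1, hCe⟩ := P6c_div (ε / 6) (by positivity) 8 (by norm_num) 6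
  obtain ⟨Cg, hCg1, hCg⟩ := hSG4
  obtain ⟨Cr, hCr1, hCr⟩ := hRDC
  set W : ℝ := 2 * (Ca * Cb ^ 2 * Cc * Cg * Cl) + Cr * Cc * Ce + 4 * Cc with hW
  have hCa0 : 0 < Ca := by linarith
  have hCb0 : 0 < Cb := by linarith
  have hCc0 : 0 < Cc := by linarith
  have hCl0 : 0 < Cl := by linarith
  have hCe0 : 0 < Ce := by linarith
  have hCg0 : 0 < Cg := by linarith
  have hCr0 : 0 < Cr := by linarith
  refine ⟨Cc * W, ?_, ?_⟩
  · have h1 : 1 ≤ W := by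
      have : 0 < 2 * (Ca * Cb ^ 2 * Cc * Cg * Cl) + Cr * Cc * Ce := by positivity
      rw [hW]; linarith
    exact one_le_mul_of_one_le_of_one_le hCc1 h1
  intro T N K y P c q₁ q₂ e s a hN hNT hK hKT hP hPT hy1 hyT hc hcT hdiv ha hy hs
  have hT : 1 ≤ T := hN.trans hNT
  have hT' : (1 : ℝ) ≤ T := by exact_mod_cast hT
  have hN' : (1 : ℝ) ≤ N := by exact_mod_cast hN
  have hK' : (1 : ℝ) ≤ K := by exact_mod_cast hK
  have hP' : (0 : ℝ) < P := by exact_mod_cast hP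
  have hy0 : (0 : ℝ) < y := by exact_mod_cast hy1
  have hprod0 : q₁ * q₂ * e ≠ 0 := by
    rintro h0
    rw [h0] at hdiv
    have := Nat.eq_zero_of_zero_dvd hdiv
    omega
  have hq1 : 1 ≤ q₁ := Nat.one_le_iff_ne_zero.2 (by rintro rfl; simp at hprod0)
  have hq2 : 1 ≤ q₂ := Nat.one_le_iff_ne_zero.2 (by rintro rfl; simp at hprod0)
  have he : 1 ≤ e := Nat.one_le_iff_ne_zero.2 (by rintro rfl; simp at hprod0)
  have dq1 : q₁ ∣ c := (Dvd.intro (q₂ * e) (by ring)).trans hdiv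
  have dq2 : q₂ ∣ c := (Dvd.intro (q₁ * e) (by ring)).trans hdiv
  have de : e ∣ c := (Dvd.intro (q₁ * q₂) (by ring)).trans hdiv
  have dq1e : q₁ * e ∣ c := (Dvd.intro q₂ (by ring)).trans hdiv
  have lq1 : q₁ ≤ T := (Nat.le_of_dvd hc dq1).trans hcT
  have lq2 : q₂ ≤ T := (Nat.le_of_dvd hc dq2).trans hcT
  have le' : e ≤ T := (Nat.le_of_dvd hc de).trans hcT
  set t : ℝ := (T : ℝ) ^ (ε / 6) with ht
  have ht1 : 1 ≤ t := Real.one_le_rpow hT' (by positivity)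
  have ht0 : 0 < t := by linarith
  have ht6 : (T : ℝ) ^ ε = t ^ 6 := by
    rw [ht, ← Real.rpow_natCast, ← Real.rpow_mul (by linarith)]
    congr 1
    push_cast
    ring
  have hy2 : (2 : ℝ) ^ y.primeFactors.card ≤ Cc * t :=
    (P6c_two_pow y hy1).trans (hCc T hT y hy1 (by
      have : (y : ℝ) ≤ T := by exact_mod_cast hyT
      simpa using this))
  have hh3 : ∀ h ∈ Ico P (2 * P), (3 : ℝ) ^ h.primeFactors.card ≤ (Cb * t) ^ 2 := by
    intro h hh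
    obtain ⟨h1, h2⟩ := mem_Ico.1 hh
    have hpos : 0 < h := by omega
    refine (P6c_three_pow h hpos).trans (pow_le_pow_left₀ (by positivity) (hCb T hT h hpos ?_) 2)
    have h3 : h ≤ 2 * T ^ 1 := by rw [pow_one]; omega
    exact_mod_cast h3
  have hpc : ((pairs N K y).card : ℝ) ≤ Cc * t * (N * K / y) := by
    refine (pairs_card N K y hy).trans ?_
    exact mul_le_mul_of_nonneg_right hy2 (by positivity)
  set Pr : ℝ := ∏ i, (2 * (a i : ℝ) + 1) with hPr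
  have hPr0 : 0 ≤ Pr := by rw [hPr]; exact prod_nonneg fun i _ => by positivity
  set S : ℝ := (N : ℝ) * K / (y * P) with hS
  have hS0 : 0 ≤ S := by rw [hS]; positivity
  set V : ℝ := (N : ℝ) * K / y with hV
  have hV0 : 0 ≤ V := by rw [hV]; positivity
  set G : ℝ := (q₂ * a 0 : ℝ) * (q₁ * e * a 3) + (a 1 + 1) * (e * a 2 + 1) +
      (a 1 + 1) * (q₁ * e * a 3 + 1) + (e * a 2 + 1) * (q₁ * e * a 3 + 1) + q₂ * a 0 with hG
  have hG0 : 0 ≤ G := by rw [hG]; positivity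
  set H : ℝ := (a 0 : ℝ) + a 1 + (a 0 : ℝ) * a 1 / P with hH
  have hH0 : 0 ≤ H := by rw [hH]; positivity
  have hdB : dB N K y P q₁ q₂ e a = Pr * (1 + S) + (G + H) * V := by
    unfold dB
    rw [hG, hH, hPr, hS, hV]
    ring
  have hσb : ∀ σ ∈ e.divisors, ∑ v ∈ box4 a, ∑ h ∈ Ico P (2 * P), ∑ p ∈ pairs N K y,
      DC4_c c q₁ q₂ σ h p v ≤ W * t ^ 5 * (Pr * (1 + S) + (G + H) * V) := by
    intro σ hσ
    have hσe : σ ∣ e := (Nat.mem_divisors.1 hσ).1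
    have hσ1 : 1 ≤ σ := Nat.pos_of_dvd_of_pos hσe he
    have hσle : σ ≤ e := Nat.le_of_dvd he hσe
    have dσ : σ ∣ c := hσe.trans de
    have dq1σ : q₁ * σ ∣ c := (Nat.mul_dvd_mul_left q₁ hσe).trans dq1e
    rw [← sum_filter_add_sum_filter_not (box4 a) (fun v => v.2.2.1 = 0 ∧ v.2.2.2 = 0),
      ← sum_filter_add_sum_filter_not ((box4 a).filter (fun v => ¬ (v.2.2.1 = 0 ∧ v.2.2.2 = 0)))
        (fun v => Rf (q₂ * v.1) v.2.1 (σ * v.2.2.1) (q₁ * σ * v.2.2.2) = 0)]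
    -- third part
    have partC : ∑ v ∈ (box4 a).filter (fun v => v.2.2.1 = 0 ∧ v.2.2.2 = 0),
        ∑ h ∈ Ico P (2 * P), ∑ p ∈ pairs N K y, DC4_c c q₁ q₂ σ h p v ≤ 4 * Cc * t ^ 5 * (H * V) := by
      refine (DC4_third hP dq2 a).trans ?_
      have h1 : 4 * ((a 0 : ℝ) * a 1 / P) + 2 * a 0 + 2 * a 1 ≤ 4 * H := by
        rw [hH]
        have : (0 : ℝ) ≤ a 0 := by positivity
        have : (0 : ℝ) ≤ a 1 := by positivity
        linarith
      calc ((pairs N K y).card : ℝ) * (4 * ((a 0 : ℝ) * a 1 / P) + 2 * a 0 + 2 * a 1)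
          ≤ (Cc * t * V) * (4 * H) := mul_le_mul hpc h1 (by positivity) (by positivity)
        _ = (4 * Cc * (H * V)) * t ^ 1 := by ring
        _ ≤ (4 * Cc * (H * V)) * t ^ 5 :=
            mul_le_mul_of_nonneg_left (pow_le_pow_right₀ ht1 (by norm_num)) (by positivity)
        _ = _ := by ring
    -- second part
    have partB : ∑ v ∈ ((box4 a).filter (fun v => ¬ (v.2.2.1 = 0 ∧ v.2.2.2 = 0))).filter
          (fun v => Rf (q₂ * v.1) v.2.1 (σ * v.2.2.1) (q₁ * σ * v.2.2.2) = 0),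
        ∑ h ∈ Ico P (2 * P), ∑ p ∈ pairs N K y, DC4_c c q₁ q₂ σ h p v ≤
        Cr * Cc * Ce * t ^ 5 * (G * V) := by
      have h1 : ∀ v ∈ ((box4 a).filter (fun v => ¬ (v.2.2.1 = 0 ∧ v.2.2.2 = 0))).filter
          (fun v => Rf (q₂ * v.1) v.2.1 (σ * v.2.2.1) (q₁ * σ * v.2.2.2) = 0),
          ∑ h ∈ Ico P (2 * P), ∑ p ∈ pairs N K y, DC4_c c q₁ q₂ σ h p v ≤ (Cc * t * V) * (Ce * t) := by
        intro v hv
        have hv' := (mem_filter.1 (mem_filter.1 hv).1).1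
        refine (DC4_second (Ce * t) (by positivity) ?_).trans ?_
        · intro p hp n hn hor
          refine hCe T hT n hn ?_
          obtain ⟨s1, s2, s3, s4⟩ := DC4_scaled hT lq1 lq2 (hσle.trans le') ha hv'
          obtain ⟨p1, p2, p3, p4, -⟩ := P6c_mem_pairs hp
          have hn1 : (p.1 : ℤ) ≤ T := by exact_mod_cast p2.trans hNT
          have hk1 : (p.2 : ℤ) ≤ T := by exact_mod_cast p4.trans hKT
          obtain ⟨f1, f2⟩ := DC4_F_le s1 s2 s3 s4 (by positivity : (0 : ℤ) ≤ p.1) hn1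
            (by positivity : (0 : ℤ) ≤ p.2) hk1
          have eT : 8 * ((T : ℤ) ^ 3 * (T : ℤ) ^ 3) = 8 * (T : ℤ) ^ 6 := by ring
          rw [eT] at f1 f2
          have : (n : ℤ) ≤ 8 * (T : ℤ) ^ 6 := by
            rcases hor with h' | h'
            · rw [h', Int.natCast_natAbs]; exact f1
            · rw [h', Int.natCast_natAbs]; exact f2
          exact_mod_cast this
        · exact mul_le_mul_of_nonneg_right hpc (by positivity)
      have h2 : ((((box4 a).filter (fun v => ¬ (v.2.2.1 = 0 ∧ v.2.2.2 = 0))).filter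
          (fun v => Rf (q₂ * v.1) v.2.1 (σ * v.2.2.1) (q₁ * σ * v.2.2.2) = 0)).card : ℝ) ≤ Cr * G := by
        have h3 : (((box4 a).filter (fun v => ¬ (v.2.2.1 = 0 ∧ v.2.2.2 = 0))).filter
          (fun v => Rf (q₂ * v.1) v.2.1 (σ * v.2.2.1) (q₁ * σ * v.2.2.2) = 0)) =
            (box4 a).filter (fun v => Rf (q₂ * v.1) v.2.1 (σ * v.2.2.1) (q₁ * σ * v.2.2.2) = 0 ∧
              ¬ (v.2.2.1 = 0 ∧ v.2.2.2 = 0)) := by
          rw [filter_filter]
          apply filter_congr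
          intro v _
          tauto
        rw [h3]
        have h4 := DC4_deg q₁ q₂ e σ hq1 hq2 hσ1 hσle a
        have h5 := hCr (DC4_a q₁ q₂ e a)
        refine (le_trans (by exact_mod_cast h4) h5).trans (le_of_eq ?_)
        have z0 : DC4_a q₁ q₂ e a 0 = q₂ * a 0 := rfl
        have z1 : DC4_a q₁ q₂ e a 1 = a 1 := rfl
        have z2 : DC4_a q₁ q₂ e a 2 = e * a 2 := rfl
        have z3 : DC4_a q₁ q₂ e a 3 = q₁ * e * a 3 := rfl
        rw [z0, z1, z2, z3, hG]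
        push_cast
        ring
      calc _ ≤ ∑ v ∈ ((box4 a).filter (fun v => ¬ (v.2.2.1 = 0 ∧ v.2.2.2 = 0))).filter
              (fun v => Rf (q₂ * v.1) v.2.1 (σ * v.2.2.1) (q₁ * σ * v.2.2.2) = 0),
            (Cc * t * V) * (Ce * t) := sum_le_sum h1
        _ = ((((box4 a).filter (fun v => ¬ (v.2.2.1 = 0 ∧ v.2.2.2 = 0))).filter
              (fun v => Rf (q₂ * v.1) v.2.1 (σ * v.2.2.1) (q₁ * σ * v.2.2.2) = 0)).card : ℝ) *
            ((Cc * t * V) * (Ce * t)) := by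
            rw [sum_const, nsmul_eq_mul]
        _ ≤ (Cr * G) * ((Cc * t * V) * (Ce * t)) := mul_le_mul_of_nonneg_right h2 (by positivity)
        _ = (Cr * Cc * Ce * (G * V)) * t ^ 2 := by ring
        _ ≤ (Cr * Cc * Ce * (G * V)) * t ^ 5 :=
            mul_le_mul_of_nonneg_left (pow_le_pow_right₀ ht1 (by norm_num)) (by positivity)
        _ = _ := by ring
    -- main part
    have partA : ∑ v ∈ ((box4 a).filter (fun v => ¬ (v.2.2.1 = 0 ∧ v.2.2.2 = 0))).filter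
          (fun v => ¬ Rf (q₂ * v.1) v.2.1 (σ * v.2.2.1) (q₁ * σ * v.2.2.2) = 0),
        ∑ h ∈ Ico P (2 * P), ∑ p ∈ pairs N K y, DC4_c c q₁ q₂ σ h p v ≤
        2 * (Ca * Cb ^ 2 * Cc * Cg * Cl) * t ^ 5 * (Pr * (1 + S)) := by
      have hsub : ((box4 a).filter (fun v => ¬ (v.2.2.1 = 0 ∧ v.2.2.2 = 0))).filter
          (fun v => ¬ Rf (q₂ * v.1) v.2.1 (σ * v.2.2.1) (q₁ * σ * v.2.2.2) = 0) ⊆
          (box4 a).filter (fun v => Rf (q₂ * v.1) v.2.1 (σ * v.2.2.1) (q₁ * σ * v.2.2.2) ≠ 0) := by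
        intro v hv
        rw [mem_filter, mem_filter] at hv
        rw [mem_filter]
        exact ⟨hv.1.1, hv.2⟩
      have h1 : ∀ v ∈ (box4 a).filter
          (fun v => Rf (q₂ * v.1) v.2.1 (σ * v.2.2.1) (q₁ * σ * v.2.2.2) ≠ 0),
          ∑ h ∈ Ico P (2 * P), ∑ p ∈ pairs N K y, DC4_c c q₁ q₂ σ h p v ≤
          (Ca * t) * ((Cb * t) ^ 2 * (Cc * t)) * (1 + 2 * S * (g4 v.1 v.2.1 v.2.2.1 v.2.2.2 : ℝ)) := by
        intro v hv
        obtain ⟨hv1, hv2⟩ := mem_filter.1 hv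
        refine (DC4_first hPC4 hN hy dq2 dσ dq1σ hv2 ((Cb * t) ^ 2) (Cc * t) (by positivity)
          (by positivity) hP hh3 hy2).trans ?_
        have eS : 2 * (K : ℝ) * N * (g4 v.1 v.2.1 v.2.2.1 v.2.2.2 : ℝ) / (P * y) =
            2 * S * (g4 v.1 v.2.1 v.2.2.1 v.2.2.2 : ℝ) := by
          rw [hS]
          field_simp
        rw [eS, mul_assoc (Ca * t)]
        apply mul_le_mul_of_nonneg_right _ (by positivity)
        refine hCa T hT _ (Int.natAbs_pos.2 hv2) ?_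
        obtain ⟨s1, s2, s3, s4⟩ := DC4_scaled hT lq1 lq2 (hσle.trans le') ha hv1
        have h5 := DC4_Rf_le s1 s2 s3 s4
        rw [← Int.natCast_natAbs] at h5
        have eT : 4000 * ((T : ℤ) ^ 3) ^ 6 = 4000 * (T : ℤ) ^ 18 := by ring
        rw [eT] at h5
        exact_mod_cast h5
      have hsg := hCg a T q₁ q₂ σ ha hT hq1 hq2 hσ1
      have hlog := hCl T hT
      have hlog1 : 1 ≤ 1 + Real.log T := by
        have := Real.log_nonneg hT'
        linarith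
      have hcard : (((box4 a).filter
          (fun v => Rf (q₂ * v.1) v.2.1 (σ * v.2.2.1) (q₁ * σ * v.2.2.2) ≠ 0)).card : ℝ) ≤ Pr := by
        rw [hPr, ← DC4_box_card]
        exact_mod_cast card_le_card (filter_subset _ _)
      calc _ ≤ ∑ v ∈ (box4 a).filter
              (fun v => Rf (q₂ * v.1) v.2.1 (σ * v.2.2.1) (q₁ * σ * v.2.2.2) ≠ 0),
            ∑ h ∈ Ico P (2 * P), ∑ p ∈ pairs N K y, DC4_c c q₁ q₂ σ h p v := by
            apply sum_le_sum_of_subset_of_nonneg hsub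
            intro v _ _
            exact sum_nonneg fun h _ => sum_nonneg fun p _ => DC4_c_nonneg _ _ _ _ _ _ _
        _ ≤ ∑ v ∈ (box4 a).filter
          (fun v => Rf (q₂ * v.1) v.2.1 (σ * v.2.2.1) (q₁ * σ * v.2.2.2) ≠ 0),
            (Ca * t) * ((Cb * t) ^ 2 * (Cc * t)) * (1 + 2 * S * (g4 v.1 v.2.1 v.2.2.1 v.2.2.2 : ℝ)) :=
            sum_le_sum h1
        _ = (Ca * t) * ((Cb * t) ^ 2 * (Cc * t)) * ((((box4 a).filter
              (fun v => Rf (q₂ * v.1) v.2.1 (σ * v.2.2.1) (q₁ * σ * v.2.2.2) ≠ 0)).card : ℝ) +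
              2 * S * ∑ v ∈ (box4 a).filter
              (fun v => Rf (q₂ * v.1) v.2.1 (σ * v.2.2.1) (q₁ * σ * v.2.2.2) ≠ 0),
                (g4 v.1 v.2.1 v.2.2.1 v.2.2.2 : ℝ)) := by
            rw [← mul_sum, sum_add_distrib, sum_const, nsmul_eq_mul, ← mul_sum, mul_one]
        _ ≤ (Ca * t) * ((Cb * t) ^ 2 * (Cc * t)) * (Pr + 2 * S * (Cg * (1 + Real.log T) * Pr)) := by
            apply mul_le_mul_of_nonneg_left _ (by positivity)
            apply add_le_add hcard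
            exact mul_le_mul_of_nonneg_left hsg (by positivity)
        _ ≤ (Ca * t) * ((Cb * t) ^ 2 * (Cc * t)) * (2 * (Cg * (Cl * t)) * (Pr * (1 + S))) := by
            apply mul_le_mul_of_nonneg_left _ (by positivity)
            have r1 : 1 ≤ Cg * (1 + Real.log T) := one_le_mul_of_one_le_of_one_le hCg1 hlog1
            have r2 : Cg * (1 + Real.log T) ≤ Cg * (Cl * t) := mul_le_mul_of_nonneg_left hlog hCg0.le
            have r3 : 1 ≤ Cg * (Cl * t) := r1.trans r2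
            have r4 : 0 ≤ Pr * S := by positivity
            have r5 : Cg * (1 + Real.log T) * (Pr * S) ≤ Cg * (Cl * t) * (Pr * S) :=
              mul_le_mul_of_nonneg_right r2 r4
            have r6 : 1 * Pr ≤ Cg * (Cl * t) * Pr := mul_le_mul_of_nonneg_right r3 hPr0
            have r7 : 0 ≤ Cg * (Cl * t) * Pr := by positivity
            calc Pr + 2 * S * (Cg * (1 + Real.log T) * Pr)
                = 1 * Pr + 2 * (Cg * (1 + Real.log T) * (Pr * S)) := by ring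
              _ ≤ 2 * (Cg * (Cl * t) * Pr) + 2 * (Cg * (Cl * t) * (Pr * S)) := by linarith
              _ = _ := by ring
        _ = _ := by ring
    have w1 : 0 ≤ Pr * (1 + S) := by positivity
    have w2 : 0 ≤ G * V := by positivity
    have w3 : 0 ≤ H * V := by positivity
    have w4 : 0 ≤ t ^ 5 := by positivity
    have c1 : 2 * (Ca * Cb ^ 2 * Cc * Cg * Cl) ≤ W := by
      rw [hW]
      have : 0 ≤ Cr * Cc * Ce + 4 * Cc := by positivity
      linarith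
    have c2 : Cr * Cc * Ce ≤ W := by
      rw [hW]
      have : 0 ≤ 2 * (Ca * Cb ^ 2 * Cc * Cg * Cl) + 4 * Cc := by positivity
      linarith
    have c3 : 4 * Cc ≤ W := by
      rw [hW]
      have : 0 ≤ 2 * (Ca * Cb ^ 2 * Cc * Cg * Cl) + Cr * Cc * Ce := by positivity
      linarith
    have b1 : 2 * (Ca * Cb ^ 2 * Cc * Cg * Cl) * t ^ 5 * (Pr * (1 + S)) ≤ W * t ^ 5 * (Pr * (1 + S)) :=
      mul_le_mul_of_nonneg_right (mul_le_mul_of_nonneg_right c1 w4) w1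
    have b2 : Cr * Cc * Ce * t ^ 5 * (G * V) ≤ W * t ^ 5 * (G * V) :=
      mul_le_mul_of_nonneg_right (mul_le_mul_of_nonneg_right c2 w4) w2
    have b3 : 4 * Cc * t ^ 5 * (H * V) ≤ W * t ^ 5 * (H * V) :=
      mul_le_mul_of_nonneg_right (mul_le_mul_of_nonneg_right c3 w4) w3
    have eq : W * t ^ 5 * (Pr * (1 + S) + (G + H) * V) =
      W * t ^ 5 * (Pr * (1 + S)) + W * t ^ 5 * (G * V) + W * t ^ 5 * (H * V) := by ring
    rw [eq]
    linarith
  refine (DC4_card N K y P c q₁ q₂ e he s hs a).trans ((sum_le_sum hσb).trans ?_)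
  rw [sum_const, nsmul_eq_mul, hdB, ht6]
  have hdc : (e.divisors.card : ℝ) ≤ Cc * t := hCc T hT e he (by
    have : (e : ℝ) ≤ T := by exact_mod_cast le'
    simpa using this)
  have hW0 : 0 ≤ W := by rw [hW]; positivity
  calc (e.divisors.card : ℝ) * (W * t ^ 5 * (Pr * (1 + S) + (G + H) * V))
      ≤ (Cc * t) * (W * t ^ 5 * (Pr * (1 + S) + (G + H) * V)) :=
        mul_le_mul_of_nonneg_right hdc (by positivity)
    _ = _ := by ring

end Pool.Agent.T5
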