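import Pool.Agent.helper3.T5.SpecA

set_option autoImplicit false

namespace Pool.Agent.T5

open Finset NumberField Pool.Agent.helper3.FT Pool.Agent.helper47.RA

theorem AALW_dvd {K : Type} [Field K] [NumberField K] (Q : QF K) {x : 𝓞 K} {p : ℕ}
    (h : (p : 𝓞 K) ∣ x) : (p : ℤ) ∣ Q.Y x := by
  obtain ⟨y, rfl⟩ := h
  have h1 : ((p : ℕ) : 𝓞 K) * y = ((p : ℤ) : 𝓞 K) * y := by push_cast; rfl
  rw [h1, Q.Y_int_mul]
  exact dvd_mul_right _ _

theorem AALW_norm {K : Type} [Field K] [NumberField K] (Q : QF K) {x : 𝓞 K} {N : ℤ} {p : ℕ}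
    (h : (p : 𝓞 K) ∣ x) (hN : x * Q.cj x = (N : 𝓞 K)) : (p : ℤ) ^ 2 ∣ N := by
  obtain ⟨y, rfl⟩ := h
  obtain ⟨M, hM, -⟩ := Q.exists_norm y
  refine ⟨M, ?_⟩
  apply QF.int_inj (K := K)
  rw [← hN]
  push_cast
  rw [← hM, map_mul, map_natCast]
  ring

theorem AALW (hARAM : ARAM_stmt) (hAPRM : APRM_stmt) : AALW_stmt := by
  refine ⟨?_, ?_⟩
  · rintro K _ _ Q F p hp halw ⟨hβ, hγ⟩
    rcases halw with h | ⟨h1, h2, h3⟩
    · exact h.1 hβ
    · have ha0 : 0 < Ideal.absNorm F.a := by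
        have : (0 : ℤ) < (Ideal.absNorm F.a : ℤ) := by rw [F.na]; exact abs_pos.2 F.hZ
        exact_mod_cast this
      have hlam : lamI F.a F.β = Ideal.absNorm F.L := by
        unfold lamI
        rw [F.iβ, map_mul, map_pow, Nat.mul_div_cancel_left _ (by positivity)]
      have hΛ : ¬ (p : ℤ) ∣ F.Λ := by
        intro h
        apply h3
        rw [hlam]
        have : (p : ℤ) ∣ (Ideal.absNorm F.L : ℤ) := by rw [F.nL]; exact (dvd_abs _ _).2 h
        exact_mod_cast this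
      have hZ : (p : ℤ) ∣ F.Z := by
        have : (p : ℤ) ∣ (Ideal.absNorm F.a : ℤ) := by exact_mod_cast h1
        rw [F.na] at this
        exact (dvd_abs _ _).1 this
      have hane : F.a ≠ ⊥ := by
        intro h0
        rw [h0, Ideal.absNorm_bot] at ha0
        exact lt_irrefl _ ha0
      have hZ2 : ¬ (p : ℤ) ^ 2 ∣ F.Z := by
        intro h
        apply hAPRM K Q F.a p hp h2 hane F.pa
        have : (p : ℤ) ^ 2 ∣ (Ideal.absNorm F.a : ℤ) := by rw [F.na]; exact (dvd_abs _ _).2 h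
        exact_mod_cast this
      have hN : F.γ * Q.cj F.γ = ((F.Z * F.Λ ^ 2 : ℤ) : 𝓞 K) := by
        rw [F.nγ]; push_cast; ring
      have hpγ : (p : 𝓞 K) ∣ F.γ := Q.dvd_of_dvd p hp F.γ _ hN hγ (hZ.mul_right _)
      have h4 := AALW_norm Q hpγ hN
      have hco : IsCoprime ((p : ℤ) ^ 2) (F.Λ ^ 2) :=
        IsCoprime.pow ((Nat.prime_iff_prime_int.1 hp).coprime_iff_not_dvd.2 hΛ)
      exact hZ2 (hco.dvd_of_dvd_mul_right h4)
  · intro K _ _ Q a α p hp ha hα halw hdiv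
    have hpα : (p : 𝓞 K) ∣ α := by
      have h1 : Ideal.span {(p : 𝓞 K)} ∣ Ideal.span {α} := (dvd_mul_right _ _).trans hdiv
      rw [Ideal.dvd_iff_le, Ideal.span_singleton_le_span_singleton] at h1
      exact h1
    rcases halw with h | ⟨h1, h2, h3⟩
    · exact h.1 (AALW_dvd Q hpα)
    · apply h3
      obtain ⟨J, hJ⟩ := hdiv
      have hp2 : Ideal.absNorm (Ideal.span {(p : 𝓞 K)}) = p ^ 2 := by
        have := Q.absNorm_eq (p : 𝓞 K) ((p : ℤ) ^ 2) (by push_cast; rw [map_natCast]; ring)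
        rw [abs_of_nonneg (by positivity)] at this
        exact_mod_cast this
      have ha0 : 0 < Ideal.absNorm a :=
        Nat.pos_of_ne_zero (by rw [Ne, Ideal.absNorm_eq_zero_iff]; exact ha)
      unfold lamI
      rw [hJ, map_mul, map_mul, map_pow, hp2]
      have e : p ^ 2 * Ideal.absNorm a ^ 2 * Ideal.absNorm J =
        Ideal.absNorm a ^ 2 * (p ^ 2 * Ideal.absNorm J) := by ring
      rw [e, Nat.mul_div_cancel_left _ (by positivity)]
      exact ⟨p * Ideal.absNorm J, by ring⟩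

end Pool.Agent.T5
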